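import Pool.Agent.DTU.Ind

/-!
# Double coverings of the projective space branched along hyperplanes

Let `α_i = h 0 i`, `β_i = h 1 i` be `2 n` linear forms on the space of dimension `n`. A point `P` of the
product of `n` projective lines and a vector `x` with `α_i(x) = P_i ^ 2 β_i(x)` (`Nl`) give the point
`(x, y)`, `y = ∏ P_i β_i(x)` (`yy`), of the double covering `y ^ 2 = ∏ α_i(x) β_i(x)`. All points of the
double covering are of this form, and `x` exists if and only if `P` is a point of the hypersurface
`fam h` (`Pool.Agent.DTU`).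
-/

set_option autoImplicit false

noncomputable section

namespace Pool.Agent.DCV

open Pool.Agent.ZCyc Pool.Agent.Dess Pool.Agent.GT Pool.Agent.TInc
open Pool.Agent.HGF (fst snd vlo)
open scoped Classical

variable {n : ℕ}

/-- the linear form with the coefficients `u` over an extension field -/
def lf (u : Fin n → ℂ) {K : Type} [Field K] [Algebra ℂ K] (x : Fin n → K) : K :=
  ∑ j, algebraMap ℂ K (u j) * x j

/-- the hypersurface -/
def fam (h : Fin 2 → Fin n → Fin n → ℂ) : DTU.Fam ℂ 0 n :=
  ⟨fun _ _ => 0, fun l i _ => h 0 i l, fun l i _ => h 1 i l, fun _ => 2⟩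

/-- the vectors which belong to the point `P` -/
def Nl (h : Fin 2 → Fin n → Fin n → ℂ) {K : Type} [Field K] [Algebra ℂ K] (P : Fin n → Option K)
    (x : Fin n → K) : Prop := ∀ i, lf (h 0 i) x * snd (P i) ^ 2 = lf (h 1 i) x * fst (P i) ^ 2

/-- the coordinate `y` -/
def yy (h : Fin 2 → Fin n → Fin n → ℂ) {K : Type} [Field K] [Algebra ℂ K] (P : Fin n → Option K)
    (x : Fin n → K) : K := ∏ i, (lf (h 1 i) x * (fst (P i) * snd (P i)))

variable (h : Fin 2 → Fin n → Fin n → ℂ) {K : Type} [Field K] [Algebra ℂ K]

theorem on_iff {z : Fin 0 → Option K} {P : Fin n → Option K} :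
    DTU.On (fam h) z P ↔ ∃ x : Fin n → K, x ≠ 0 ∧ Nl h P x := by
  unfold DTU.On DTU.Col.On
  rw [← Matrix.exists_mulVec_eq_zero_iff]
  refine exists_congr fun x => and_congr_right fun _ => ?_
  have hev : ∀ (e : Fin 0 → ℕ) (c : (Fin 0 → ℕ) → ℂ) (S : Fin 0 → Fin 2 → K) (u : ℂ),
      (∀ a, c a = u) → DTU.ev e c S = algebraMap ℂ K u := by
    intro e c S u hc
    unfold DTU.ev
    simp [hc]
  have h1 : ∀ i, (Matrix.of (((fam h).col z).ga (fam h).M P)).mulVec x i =
      lf (h 0 i) x * snd (P i) ^ 2 - lf (h 1 i) x * fst (P i) ^ 2 := by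
    intro i
    unfold Matrix.mulVec dotProduct lf
    rw [Finset.sum_mul, Finset.sum_mul, ← Finset.sum_sub_distrib]
    refine Finset.sum_congr rfl fun l _ => ?_
    change (DTU.ev _ ((fam h).A l i) _ * snd (P i) ^ 2 - DTU.ev _ ((fam h).B l i) _ *
      fst (P i) ^ 2) * x l = _
    rw [hev _ ((fam h).A l i) _ (h 0 i l) (fun _ => rfl),
      hev _ ((fam h).B l i) _ (h 1 i l) (fun _ => rfl)]
    ring
  constructor
  · intro h2 i
    have h3 := congrFun h2 i
    rw [h1, Pi.zero_apply] at h3
    exact sub_eq_zero.1 h3
  · intro h2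
    funext i
    rw [h1, Pi.zero_apply]
    exact sub_eq_zero.2 (h2 i)

theorem lf_smul (u : Fin n → ℂ) (a : K) (x : Fin n → K) : lf u (fun j => a * x j) = a * lf u x := by
  unfold lf
  rw [Finset.mul_sum]
  refine Finset.sum_congr rfl fun j _ => ?_
  ring

theorem lf_add (u : Fin n → ℂ) (x x' : Fin n → K) :
    lf u (fun j => x j + x' j) = lf u x + lf u x' := by
  unfold lf
  rw [← Finset.sum_add_distrib]
  refine Finset.sum_congr rfl fun j _ => ?_
  ring

theorem lf_const (u : Fin n → ℂ) (x : Fin n → ℂ) :
    lf u (fun j => algebraMap ℂ K (x j)) = algebraMap ℂ K (lf u x) := by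
  unfold lf
  rw [map_sum]
  refine Finset.sum_congr rfl fun j _ => ?_
  rw [map_mul]
  rfl

variable {h}

theorem yy_sq {P : Fin n → Option K} {x : Fin n → K} (hx : Nl h P x) :
    yy h P x ^ 2 = ∏ e, ∏ i, lf (h e i) x := by
  rw [Fin.prod_univ_two, ← Finset.prod_mul_distrib]
  unfold yy
  rw [← Finset.prod_pow]
  refine Finset.prod_congr rfl fun i _ => ?_
  have h1 := hx i
  cases hP : P i with
  | none =>
    rw [hP, HGF.fst_none, HGF.snd_none] at h1
    rw [HGF.fst_none, HGF.snd_none]
    have h2 : lf (h 1 i) x = 0 := by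
      linear_combination -h1
    rw [h2]
    ring
  | some w =>
    rw [hP, HGF.fst_some, HGF.snd_some] at h1
    rw [HGF.fst_some, HGF.snd_some]
    linear_combination -(lf (h 1 i) x) * h1

theorem Nl.smul {P : Fin n → Option K} {x : Fin n → K} (hx : Nl h P x) (a : K) :
    Nl h P fun j => a * x j := by
  intro i
  rw [lf_smul, lf_smul, mul_assoc, mul_assoc, hx i]

theorem Nl.add {P : Fin n → Option K} {x x' : Fin n → K} (hx : Nl h P x) (hx' : Nl h P x') :
    Nl h P fun j => x j + x' j := by
  intro i
  rw [lf_add, lf_add, add_mul, add_mul, hx i, hx' i]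

theorem yy_smul (P : Fin n → Option K) (a : K) (x : Fin n → K) :
    yy h P (fun j => a * x j) = a ^ n * yy h P x := by
  have h1 : a ^ n = ∏ _i : Fin n, a := by
    rw [Finset.prod_const, Finset.card_univ, Fintype.card_fin]
  unfold yy
  rw [h1, ← Finset.prod_mul_distrib]
  refine Finset.prod_congr rfl fun i _ => ?_
  rw [lf_smul]
  ring

theorem Nl.const {P : Fin n → Option ℂ} {x : Fin n → ℂ} (hx : Nl h P x) :
    Nl h (fun i => (P i).map (algebraMap ℂ K)) fun j => algebraMap ℂ K (x j) := by
  intro i
  have h1 := congrArg (algebraMap ℂ K) (hx i)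
  rw [lf_const, lf_const]
  beta_reduce
  cases hP : P i with
  | none =>
    rw [hP] at h1
    simpa [HGF.fst_none, HGF.snd_none] using h1
  | some w =>
    rw [hP] at h1
    simpa [HGF.fst_some, HGF.snd_some] using h1

/-- the exchange of the sign of a coordinate -/
theorem Nl.rot {P : Fin n → Option ℂ} {x : Fin n → ℂ} (hx : Nl h P x) (i : Fin n) {u : ℂ}
    (hu : u ^ 2 = 1) : Nl h (HYG.rot i u P) x := by
  intro j
  have h1 := hx j
  unfold HYG.rot
  by_cases hj : j = i
  · subst hj
    rw [Function.update_self]
    cases hP : P j with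
    | none =>
      rw [hP] at h1
      exact h1
    | some w =>
      rw [hP] at h1
      rw [HGF.fst_some, HGF.snd_some] at h1
      rw [Option.map_some, HGF.fst_some, HGF.snd_some, mul_pow, hu, one_mul]
      exact h1
  · rw [Function.update_of_ne hj]
    exact h1

theorem yy_rot (P : Fin n → Option ℂ) (x : Fin n → ℂ) (i : Fin n) (u : ℂ) :
    yy h (HYG.rot i u P) x = u * yy h P x := by
  have e1 := Finset.mul_prod_erase Finset.univ (fun j => lf (h 1 j) x *
    (fst (HYG.rot i u P j) * snd (HYG.rot i u P j))) (Finset.mem_univ i)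
  have e2 := Finset.mul_prod_erase Finset.univ (fun j => lf (h 1 j) x *
    (fst (P j) * snd (P j))) (Finset.mem_univ i)
  have e3 : ∏ j ∈ Finset.univ.erase i, lf (h 1 j) x *
      (fst (HYG.rot i u P j) * snd (HYG.rot i u P j)) =
      ∏ j ∈ Finset.univ.erase i, lf (h 1 j) x * (fst (P j) * snd (P j)) := by
    refine Finset.prod_congr rfl fun j hj => ?_
    unfold HYG.rot
    rw [Function.update_of_ne (Finset.ne_of_mem_erase hj)]
  have e4 : fst (HYG.rot i u P i) * snd (HYG.rot i u P i) = u * (fst (P i) * snd (P i)) := by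
    unfold HYG.rot
    rw [Function.update_self]
    cases hP : P i with
    | none =>
      rw [Option.map_none, HGF.snd_none]
      ring
    | some w =>
      rw [Option.map_some, HGF.fst_some, HGF.snd_some, HGF.fst_some, HGF.snd_some]
      ring
  unfold yy
  rw [← e1, ← e2, e3, e4]
  ring

/-- every point of the double covering is given by a point `P` -/
theorem exists_P (hn : 0 < n) {x : Fin n → ℂ} {y : ℂ} (hy : y ^ 2 = ∏ e, ∏ i, lf (h e i) x) :
    ∃ P : Fin n → Option ℂ, Nl h P x ∧ yy h P x = y := by
  have h1 : ∀ i, ∃ p : Option ℂ, lf (h 0 i) x * snd p ^ 2 = lf (h 1 i) x * fst p ^ 2 := by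
    intro i
    by_cases hβ : lf (h 1 i) x = 0
    · refine ⟨none, ?_⟩
      rw [hβ, HGF.snd_none]
      ring
    · obtain ⟨w, hw⟩ := IsAlgClosed.exists_pow_nat_eq (lf (h 0 i) x / lf (h 1 i) x) two_pos
      refine ⟨some w, ?_⟩
      rw [HGF.fst_some, HGF.snd_some, hw]
      field_simp
  choose P hP using h1
  have hN : Nl h P x := hP
  have h2 : yy h P x ^ 2 = y ^ 2 := (yy_sq hN).trans hy.symm
  rcases sq_eq_sq_iff_eq_or_eq_neg.1 h2 with h3 | h3
  · exact ⟨P, hN, h3⟩
  · refine ⟨HYG.rot ⟨0, hn⟩ (-1) P, hN.rot _ (by norm_num), ?_⟩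
    rw [yy_rot, h3]
    ring

/-! ### Values -/

theorem at_lf {v : Place ℂ K} {t : K} {x : Fin n → K} {a : Fin n → ℂ}
    (ha : ∀ j, v.At (t * x j) (a j)) (u : Fin n → ℂ) : v.At (t * lf u x) (lf u a) := by
  have h1 := Place.At.sum (s := Finset.univ) fun j (_ : j ∈ Finset.univ) =>
    (Place.at_const (v := v) (u j)).mul (ha j)
  have h2 : t * lf u x = ∑ j, algebraMap ℂ K (u j) * (t * x j) := by
    unfold lf
    rw [Finset.mul_sum]
    refine Finset.sum_congr rfl fun j _ => ?_
    ring
  rw [h2]
  exact h1

private theorem at_zero_Lift (v : Place ℂ K) : v.At (0 : K) (0 : ℂ) := by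
  have h1 := Place.at_const (v := v) (0 : ℂ)
  rwa [map_zero] at h1

/-- the values at a place -/
theorem vlo_yy [HasRes ℂ K] {v : Place ℂ K} {t : K} {P : Fin n → Option K} {x : Fin n → K}
    {a : Fin n → ℂ} (hx : Nl h P x) (ha : ∀ j, v.At (t * x j) (a j)) :
    Nl h (fun i => vlo v (P i)) a ∧ v.At (t ^ n * yy h P x) (yy h (fun i => vlo v (P i)) a) := by
  have key : ∀ i, lf (h 0 i) a * snd (vlo v (P i)) ^ 2 = lf (h 1 i) a * fst (vlo v (P i)) ^ 2 ∧
      v.At (t * (lf (h 1 i) x * (fst (P i) * snd (P i))))
        (lf (h 1 i) a * (fst (vlo v (P i)) * snd (vlo v (P i)))) := by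
    intro i
    have hα := at_lf ha (h 0 i)
    have hβ := at_lf ha (h 1 i)
    have h1 := hx i
    cases hP : P i with
    | none =>
      rw [hP, HGF.fst_none, HGF.snd_none] at h1
      have h2 : lf (h 1 i) x = 0 := by
        linear_combination -h1
      rw [h2, mul_zero] at hβ
      have h3 : lf (h 1 i) a = 0 := hβ.unique (at_zero_Lift v)
      rw [HGF.vlo_none, HGF.fst_none, HGF.snd_none, HGF.fst_none, HGF.snd_none, h2, h3]
      constructor
      · ring
      · have h4 := at_zero_Lift v
        convert h4 using 1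
        · ring
        · ring
    | some w =>
      rw [hP, HGF.fst_some, HGF.snd_some] at h1
      rcases v.ring.mem_or_inv_mem w with hw | hw
      · obtain ⟨c, hc⟩ := HasRes.res v w hw
        rw [HGF.vlo_at hc, HGF.fst_some, HGF.snd_some, HGF.fst_some, HGF.snd_some]
        have h2 : v.At (t * lf (h 0 i) x) (lf (h 1 i) a * c ^ 2) := by
          have h3 := hβ.mul (hc.pow 2)
          convert h3 using 1
          linear_combination t * h1
        refine ⟨?_, ?_⟩
        · rw [hα.unique h2]
          ring
        · have h3 := hβ.mul hc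
          convert h3 using 1
          · ring
          · ring
      · obtain ⟨c, hc⟩ := HasRes.res v w⁻¹ hw
        by_cases hw0 : w = 0
        · have h2 : v.At w 0 := by
            rw [hw0]
            exact at_zero_Lift v
          rw [HGF.vlo_at h2, HGF.fst_some, HGF.snd_some, HGF.fst_some, HGF.snd_some, hw0]
          have h3 : lf (h 0 i) x = 0 := by
            rw [hw0] at h1
            linear_combination h1
          rw [h3, mul_zero] at hα
          have h4 : lf (h 0 i) a = 0 := hα.unique (at_zero_Lift v)
          rw [h4]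
          constructor
          · ring
          · have h5 := at_zero_Lift v
            convert h5 using 1
            · ring
            · ring
        by_cases hc0 : c = 0
        · have h2 : vlo v (some w) = none := by
            rw [HGF.vlo_some]
            refine HYG.vl_none.2 fun c' hc' => ?_
            have h4 := hc.mul hc'
            rw [inv_mul_cancel₀ hw0, hc0, zero_mul] at h4
            have h5 := Place.at_const (v := v) (1 : ℂ)
            rw [map_one] at h5
            exact one_ne_zero (h5.unique h4)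
          rw [h2, HGF.fst_none, HGF.snd_none, HGF.fst_some, HGF.snd_some]
          have h3 : t * lf (h 1 i) x = t * lf (h 0 i) x * w⁻¹ ^ 2 := by
            field_simp
            linear_combination -t * h1
          have h4 : v.At (t * lf (h 1 i) x) 0 := by
            have h5 := hα.mul (hc.pow 2)
            rw [hc0] at h5
            rw [h3]
            convert h5 using 1
            ring
          have h5 : lf (h 1 i) a = 0 := hβ.unique h4
          rw [h5]
          constructor
          · ring
          · have h6 := hα.mul hc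
            rw [hc0] at h6
            convert h6 using 1
            · field_simp
              linear_combination -t * h1
            · ring
        · have h2 := hc.inv hc0
          rw [inv_inv] at h2
          rw [HGF.vlo_at h2, HGF.fst_some, HGF.snd_some, HGF.fst_some, HGF.snd_some]
          have h3 : v.At (t * lf (h 0 i) x) (lf (h 1 i) a * c⁻¹ ^ 2) := by
            have h4 := hβ.mul (h2.pow 2)
            convert h4 using 1
            linear_combination t * h1
          refine ⟨?_, ?_⟩
          · rw [hα.unique h3]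
            ring
          · have h4 := hβ.mul h2
            convert h4 using 1
            · ring
            · ring
  refine ⟨fun i => (key i).1, ?_⟩
  have h1 := Place.At.prod (s := Finset.univ) fun i (_ : i ∈ Finset.univ) => (key i).2
  rw [Finset.prod_mul_distrib, Finset.prod_const, Finset.card_univ, Fintype.card_fin] at h1
  exact h1

end Pool.Agent.DCV
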